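import Pool.Agent.H30.EE.TargetsU

/-!
Module CHN of the project EE: the chain of linear forms.
-/

set_option autoImplicit false

namespace Pool.Agent.H55.EE

open Pool.Agent.H30.EE

theorem pf_CHN : T_CHN := by
  intro k K _ _ _ n B x l0 l1 ρ hB h1 h2
  by_contra hcon
  have key : ∀ s : ℕ, s ≤ B → ∃ L : Fin (s + 2) → Fin (n + 1) → k, L 0 = l0 ∧ L 1 = l1 ∧
      ¬ Rel k (fun i => el (L i) x) (ρ (s + 1)) := by
    intro s
    induction s with
    | zero =>
      intro _
      refine ⟨![l0, l1], rfl, rfl, ?_⟩
      have h3 : (fun i => el ((![l0, l1] : Fin 2 → Fin (n + 1) → k) i) x) =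
          ![el l0 x, el l1 x] := by
        funext i
        fin_cases i <;> rfl
      intro h4
      apply h1
      rw [← h3]
      exact h4
    | succ s ih =>
      intro hs
      obtain ⟨L, hL0, hL1, hL⟩ := ih (by omega)
      by_contra hno
      apply hcon
      refine ⟨s + 1, L, by omega, by omega, hL0, hL1, hL, ?_⟩
      intro l
      by_contra hl
      apply hno
      refine ⟨Fin.snoc (α := fun _ => Fin (n + 1) → k) L l, ?_, ?_, ?_⟩
      · have h0 : (0 : Fin (s + 1 + 2)) = Fin.castSucc (0 : Fin (s + 2)) := rfl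
        rw [h0, Fin.snoc_castSucc]
        exact hL0
      · have h0 : (1 : Fin (s + 1 + 2)) = Fin.castSucc (1 : Fin (s + 2)) := by
          ext
          simp
        rw [h0, Fin.snoc_castSucc]
        exact hL1
      · have h3 : (fun i => el ((Fin.snoc (α := fun _ => Fin (n + 1) → k) L l :
            Fin (s + 1 + 2) → Fin (n + 1) → k) i) x) =
            (Fin.snoc (fun i => el (L i) x) (el l x) : Fin (s + 1 + 2) → K) := by
          funext i
          refine Fin.lastCases ?_ (fun j => ?_) i
          · rw [Fin.snoc_last, Fin.snoc_last]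
          · rw [Fin.snoc_castSucc, Fin.snoc_castSucc]
        rw [h3]
        exact hl
  obtain ⟨L, hL0, hL1, hL⟩ := key B le_rfl
  exact hL (h2 L hL0 hL1)

end Pool.Agent.H55.EE
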